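import Mathlib

/-!
Non-classical symmetric nets with an automorphism group that is transitive on the ordered pairs of
joined points and on the ordered pairs of distinct non-joined points.
-/

set_option autoImplicit false

namespace Pool.Agent.Results.MP_36fbc5_co.NonClassicalNets

/-- `(P, Q, I)` (points, blocks, incidence) is an `(s, r, μ)`-net: there are `s^2 μ` points, every
block has `s μ` points, and the blocks fall into `r` parallel classes such that every point is on
exactly one block of each class and two blocks of different classes meet in `μ` points. -/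
structure IsNet {P Q : Type} (I : P → Q → Prop) (s r μ : ℕ) : Prop where
  card_points : Nat.card P = s ^ 2 * μ
  card_block : ∀ b : Q, Nat.card {p : P // I p b} = s * μ
  classes : ∃ cls : Q → Fin r, (∀ (c : Fin r) (p : P), ∃! b : Q, cls b = c ∧ I p b) ∧
    ∀ b b' : Q, cls b ≠ cls b' → Nat.card {p : P // I p b ∧ I p b'} = μ

/-- A symmetric `(s, μ)`-net: an `(s, s μ, μ)`-net whose dual is again an `(s, s μ, μ)`-net. -/
structure IsSymmetricNet {P Q : Type} (I : P → Q → Prop) (s μ : ℕ) : Prop where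
  two_le : 2 ≤ s
  one_le : 1 ≤ μ
  three_le : 3 ≤ s * μ
  net : IsNet I s (s * μ) μ
  dual_net : IsNet (fun (b : Q) (p : P) => I p b) s (s * μ) μ

/-- Two points are joined if they are distinct and some block contains both. -/
def Joined {P Q : Type} (I : P → Q → Prop) (p p' : P) : Prop :=
  p ≠ p' ∧ ∃ b : Q, I p b ∧ I p' b

/-- A permutation of the points is an automorphism if it maps every block onto a block. -/
def IsAutomorphism {P Q : Type} (I : P → Q → Prop) (g : Equiv.Perm P) : Prop :=
  ∀ b : Q, ∃ b' : Q, g '' {p | I p b} = {p | I p b'}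

/-- Blocks of the classical net in `AG(d, F)` for the line with direction `v`: the hyperplanes which
are not parallel to the line. -/
def IsClassicalBlock {F : Type} [Field F] {d : ℕ} (v : Fin d → F) (H : Set (Fin d → F)) : Prop :=
  ∃ (φ : (Fin d → F) →ₗ[F] F) (c : F), φ v ≠ 0 ∧ H = {x | φ x = c}

/-- `(P, Q, I)` is isomorphic to a classical symmetric net: points of `AG(d, F)`, `F` a finite
field, `d ≥ 2`, and hyperplanes not parallel to a given line. -/
def IsClassical {P Q : Type} (I : P → Q → Prop) : Prop :=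
  ∃ (F : Type) (_ : Field F) (_ : Finite F) (d : ℕ) (v : Fin d → F) (e : P ≃ (Fin d → F)),
    2 ≤ d ∧ v ≠ 0 ∧ ∀ H : Set (Fin d → F), IsClassicalBlock v H ↔ ∃ b : Q, H = e '' {p | I p b}

section construction

variable (L : Type) [Field L] [CharP L 2]

/-- The additive map `x ↦ x^4 + x^2 + x`. -/
def hmap : L →+ L where
  toFun x := x ^ 4 + x ^ 2 + x
  map_zero' := by ring
  map_add' x y := by
    have h2 : (2 : L) = 0 := CharTwo.two_eq_zero
    have e : (x + y) ^ 4 + (x + y) ^ 2 + (x + y) = (x ^ 4 + x ^ 2 + x) + (y ^ 4 + y ^ 2 + y) +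
      2 * (2 * x ^ 3 * y + 3 * x ^ 2 * y ^ 2 + 2 * x * y ^ 3 + x * y) := by ring
    rw [e, h2]; ring

/-- The subgroup `W` of all `x^4 + x^2 + x`. -/
abbrev W : AddSubgroup L := (hmap L).range

/-- The quotient `L / W`. -/
abbrev Z : Type := L ⧸ W L

/-- points (and blocks) of the net -/
abbrev Pt : Type := L × Z L

/-- The incidence: `(x, z)` is on the block `(y, w)` iff `x y = z + w` in `L / W`. -/
def inc (p q : Pt L) : Prop := ((p.1 * q.1 : L) : Z L) = p.2 + q.2

variable {L}

lemma inc_symm (p q : Pt L) : inc L p q ↔ inc L q p := by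
  unfold inc
  rw [mul_comm, add_comm]

lemma add_self_Z (z : Z L) : z + z = 0 := by
  induction z using QuotientAddGroup.induction_on with
  | H x => rw [← QuotientAddGroup.mk_add, CharTwo.add_self_eq_zero]; rfl

lemma mk_eq_zero {x : L} : ((x : L) : Z L) = 0 ↔ x ∈ W L := QuotientAddGroup.eq_zero_iff x

lemma eq_add_iff (a b c : Z L) : a = b + c ↔ b = a + c := by
  constructor
  · rintro rfl
    rw [add_assoc, add_self_Z, add_zero]
  · rintro rfl
    rw [add_assoc, add_self_Z, add_zero]

lemma sq_mem {x : L} (hx : x ∈ W L) : x ^ 2 ∈ W L := by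
  obtain ⟨y, rfl⟩ := hx
  refine ⟨y ^ 2, ?_⟩
  have h2 : (2 : L) = 0 := CharTwo.two_eq_zero
  show (y ^ 2) ^ 4 + (y ^ 2) ^ 2 + y ^ 2 = (y ^ 4 + y ^ 2 + y) ^ 2
  have e : (y ^ 4 + y ^ 2 + y) ^ 2 = (y ^ 2) ^ 4 + (y ^ 2) ^ 2 + y ^ 2 +
    2 * (y ^ 6 + y ^ 5 + y ^ 3) := by ring
  rw [e, h2]; ring

/-- The map induced by squaring on `L / W`. -/
def Phi : Z L →+ Z L :=
  QuotientAddGroup.map (W L) (W L)
    { toFun := fun x => x ^ 2
      map_zero' := by ring
      map_add' := fun x y => by
        have h2 : (2 : L) = 0 := CharTwo.two_eq_zero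
        have e : (x + y) ^ 2 = x ^ 2 + y ^ 2 + 2 * (x * y) := by ring
        show (x + y) ^ 2 = x ^ 2 + y ^ 2
        rw [e, h2]; ring } (fun _ hx => sq_mem hx)

lemma Phi_mk (x : L) : Phi ((x : L) : Z L) = ((x ^ 2 : L) : Z L) := rfl

lemma Phi_rel (z : Z L) : Phi (Phi z) + Phi z + z = 0 := by
  induction z using QuotientAddGroup.induction_on with
  | H x =>
    rw [Phi_mk, Phi_mk, ← QuotientAddGroup.mk_add, ← QuotientAddGroup.mk_add, mk_eq_zero]
    refine ⟨x, ?_⟩
    show x ^ 4 + x ^ 2 + x = (x ^ 2) ^ 2 + x ^ 2 + x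
    ring

lemma Phi_Phi (z : Z L) : Phi (Phi z) = z + Phi z := by
  have h := Phi_rel z
  rw [add_assoc] at h
  have h3 : Phi (Phi z) = 0 + (Phi z + z) := by
    rw [eq_add_iff, h]
  rw [h3, zero_add, add_comm]

lemma Phi_ne_zero {z : Z L} (hz : z ≠ 0) : Phi z ≠ 0 := by
  intro h
  have h1 := Phi_rel z
  rw [h, map_zero, add_zero, zero_add] at h1
  exact hz h1

lemma Phi_ne_self {z : Z L} (hz : z ≠ 0) : Phi z ≠ z := by
  intro h
  have h1 := Phi_rel z
  rw [h, h, add_self_Z, zero_add] at h1
  exact hz h1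

lemma Phi_inj : Function.Injective (Phi : Z L → Z L) := by
  rw [injective_iff_map_eq_zero]
  intro z hz
  by_contra h
  exact Phi_ne_zero h hz

lemma Phi3 (z : Z L) : Phi (Phi (Phi z)) = z := by
  rw [Phi_Phi (Phi z), Phi_Phi z, add_comm z, ← add_assoc, add_self_Z, zero_add]

section finite

variable [Fintype L] {m : ℕ} (hm : 1 ≤ m) (hL : Fintype.card L = 8 ^ m)
include hL

/-- the kernel of `h` has four elements -/
lemma card_ker : Nat.card (hmap L).ker = 4 := by
  classical
  have h2 : (2 : L) = 0 := CharTwo.two_eq_zero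
  -- an element of order seven
  have h7 : 7 ∣ Fintype.card Lˣ := by
    rw [Fintype.card_units, hL]
    have : (8 : ℕ) ^ m ≡ 1 ^ m [MOD 7] := Nat.ModEq.pow m (by decide)
    rw [one_pow] at this
    exact (Nat.modEq_iff_dvd' (Nat.one_le_pow _ _ (by norm_num))).1 this.symm
  have : Fact (Nat.Prime 7) := ⟨by norm_num⟩
  obtain ⟨ζ, hζ⟩ := exists_prime_orderOf_dvd_card 7 h7
  have hζ7 : ζ ^ 7 = 1 := by rw [← hζ]; exact pow_orderOf_eq_one ζ
  have hζ1 : ζ ≠ 1 := by
    intro h; rw [h, orderOf_one] at hζ; norm_num at hζ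
  set t : L := (ζ : L) with ht
  have ht7 : t ^ 7 = 1 := by rw [ht, ← Units.val_pow_eq_pow_val, hζ7]; rfl
  have ht1 : t ≠ 1 := fun h => hζ1 (Units.ext h)
  have ht0 : t ≠ 0 := ζ.ne_zero
  have hneg : ∀ x : L, -x = x := fun x => CharTwo.neg_eq x
  set u : L := t ^ 2 + t with hu
  have hu0 : u ≠ 0 := by
    intro h
    have : t * (t + 1) = 0 := by rw [← h, hu]; ring
    rcases mul_eq_zero.1 this with h | h
    · exact ht0 h
    · apply ht1
      have := eq_neg_of_add_eq_zero_left h
      rwa [hneg] at this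
  -- u + u^2 + u^4 = 0
  have hker : hmap L u = 0 := by
    show u ^ 4 + u ^ 2 + u = 0
    have e : u ^ 4 + u ^ 2 + u = t ^ 8 + t +
      2 * (2 * t ^ 7 + 3 * t ^ 6 + 2 * t ^ 5 + t ^ 4 + t ^ 3 + t ^ 2) := by rw [hu]; ring
    rw [e, h2, zero_mul, add_zero, show t ^ 8 = t ^ 7 * t by ring, ht7, one_mul,
      CharTwo.add_self_eq_zero]
  have hker2 : hmap L (u ^ 2) = 0 := by
    have e : hmap L (u ^ 2) = (hmap L u) ^ 2 + 2 * (u ^ 6 + u ^ 5 + u ^ 3) * (-1) := by
      show (u ^ 2) ^ 4 + (u ^ 2) ^ 2 + u ^ 2 = (u ^ 4 + u ^ 2 + u) ^ 2 + _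
      ring
    rw [e, hker, h2]; ring
  have hu1 : u ≠ 1 := by
    intro h
    have h3 : u ^ 4 + u ^ 2 + u = 0 := hker
    rw [h] at h3
    have : (1 : L) = 0 := by
      have e : (1 : L) ^ 4 + 1 ^ 2 + 1 = 1 + 2 := by norm_num
      rw [e, h2, add_zero] at h3
      exact h3
    exact one_ne_zero this
  have huu : u ^ 2 ≠ u := by
    intro h
    have : u * (u - 1) = 0 := by linear_combination h
    rcases mul_eq_zero.1 this with h | h
    · exact hu0 h
    · exact hu1 (sub_eq_zero.1 h)
  -- the kernel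
  have hsub : ({0, u, u ^ 2, u + u ^ 2} : Finset L) ⊆ Finset.univ.filter (fun x => hmap L x = 0) := by
    intro x hx
    simp only [Finset.mem_insert, Finset.mem_singleton] at hx
    rw [Finset.mem_filter]
    refine ⟨Finset.mem_univ _, ?_⟩
    rcases hx with rfl | rfl | rfl | rfl
    · exact map_zero _
    · exact hker
    · exact hker2
    · rw [map_add, hker, hker2, add_zero]
  have hcard4 : ({0, u, u ^ 2, u + u ^ 2} : Finset L).card = 4 := by
    rw [Finset.card_insert_of_notMem, Finset.card_insert_of_notMem, Finset.card_insert_of_notMem,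
      Finset.card_singleton]
    · rw [Finset.mem_singleton]
      intro h
      exact hu0 (by linear_combination (-1 : L) * h)
    · rw [Finset.mem_insert, Finset.mem_singleton]
      rintro (h | h)
      · exact huu h.symm
      · exact pow_ne_zero 2 hu0 (by linear_combination (-1 : L) * h)
    · rw [Finset.mem_insert, Finset.mem_insert, Finset.mem_singleton]
      rintro (h | h | h)
      · exact hu0 h.symm
      · exact pow_ne_zero 2 hu0 h.symm
      · apply huu
        have := eq_neg_of_add_eq_zero_left h.symm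
        rw [hneg] at this
        exact this.symm
  have hle : (Finset.univ.filter (fun x => hmap L x = 0)).card ≤ 4 := by
    let f : Polynomial L := Polynomial.X ^ 4 + Polynomial.X ^ 2 + Polynomial.X
    have hf : f.natDegree = 4 := by
      show (Polynomial.X ^ 4 + Polynomial.X ^ 2 + Polynomial.X : Polynomial L).natDegree = 4
      compute_degree!
    have hf0 : f ≠ 0 := by
      intro h; rw [h] at hf; simp at hf
    have hsub2 : Finset.univ.filter (fun x => hmap L x = 0) ⊆ f.roots.toFinset := by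
      intro x hx
      rw [Finset.mem_filter] at hx
      rw [Multiset.mem_toFinset, Polynomial.mem_roots hf0, Polynomial.IsRoot.def]
      have : x ^ 4 + x ^ 2 + x = 0 := hx.2
      simpa [f] using this
    calc _ ≤ f.roots.toFinset.card := Finset.card_le_card hsub2
      _ ≤ Multiset.card f.roots := Multiset.toFinset_card_le _
      _ ≤ f.natDegree := Polynomial.card_roots' f
      _ = 4 := hf
  have hge := Finset.card_le_card hsub
  rw [hcard4] at hge
  have heq : (Finset.univ.filter (fun x => hmap L x = 0)).card = 4 := le_antisymm hle hge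
  rw [← heq, ← Fintype.card_subtype, ← Nat.card_eq_fintype_card]
  exact Nat.card_congr (Equiv.subtypeEquivRight fun x => AddMonoidHom.mem_ker)

lemma card_Z : Nat.card (Z L) = 4 := by
  have h1 := AddSubgroup.card_eq_card_quotient_mul_card_addSubgroup (hmap L).ker
  have h2 := AddSubgroup.card_eq_card_quotient_mul_card_addSubgroup (W L)
  have h3 : Nat.card (L ⧸ (hmap L).ker) = Nat.card (W L) :=
    Nat.card_congr (QuotientAddGroup.quotientKerEquivRange (hmap L)).toEquiv
  rw [h3, card_ker hL] at h1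
  rw [h1] at h2
  have h4 : 0 < Nat.card (W L) := Nat.card_pos
  show Nat.card (L ⧸ W L) = 4
  rw [mul_comm] at h2
  exact (Nat.eq_of_mul_eq_mul_right h4 h2).symm

/-- The three nonzero elements of `Z` are `z, Φ z, z + Φ z`. -/
lemma Z_cases {z : Z L} (hz : z ≠ 0) (w : Z L) (hw : w ≠ 0) :
    w = z ∨ w = Phi z ∨ w = Phi (Phi z) := by
  classical
  have : Fintype (Z L) := Fintype.ofFinite _
  have hc : Fintype.card (Z L) = 4 := by
    rw [← Nat.card_eq_fintype_card]; exact card_Z hL
  rw [Phi_Phi]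
  have h4 : ({0, z, Phi z, z + Phi z} : Finset (Z L)).card = 4 := by
    rw [Finset.card_insert_of_notMem, Finset.card_insert_of_notMem, Finset.card_insert_of_notMem,
      Finset.card_singleton]
    · rw [Finset.mem_singleton]
      intro h
      exact hz (by simpa using h)
    · rw [Finset.mem_insert, Finset.mem_singleton]
      rintro (h | h)
      · exact Phi_ne_self hz h.symm
      · exact Phi_ne_zero hz (by simpa using h)
    · rw [Finset.mem_insert, Finset.mem_insert, Finset.mem_singleton]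
      rintro (h | h | h)
      · exact hz h.symm
      · exact Phi_ne_zero hz h.symm
      · rw [eq_add_iff, zero_add] at h
        exact Phi_ne_self hz h.symm
  have huniv : ({0, z, Phi z, z + Phi z} : Finset (Z L)) = Finset.univ := by
    rw [← Finset.card_eq_iff_eq_univ, h4, hc]
  have := Finset.mem_univ w
  rw [← huniv] at this
  simp only [Finset.mem_insert, Finset.mem_singleton] at this
  rcases this with h | h | h | h
  · exact absurd h hw
  · exact Or.inl h
  · exact Or.inr (Or.inl h)
  · exact Or.inr (Or.inr h)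

lemma card_L_eq (hm : 1 ≤ m) : Nat.card L = 4 * (2 * 8 ^ (m - 1)) := by
  rw [Nat.card_eq_fintype_card, hL]
  obtain ⟨k, rfl⟩ : ∃ k, m = k + 1 := ⟨m - 1, by omega⟩
  rw [Nat.add_sub_cancel, pow_succ]; ring

lemma card_W (hm : 1 ≤ m) : Nat.card (W L) = 2 * 8 ^ (m - 1) := by
  have h2 := AddSubgroup.card_eq_card_quotient_mul_card_addSubgroup (W L)
  rw [card_L_eq hL hm, show Nat.card (L ⧸ W L) = 4 from card_Z hL] at h2
  omega

end finite

lemma surj_mul {x : L} (hx : x ≠ 0) (z : Z L) : ∃ y : L, ((x * y : L) : Z L) = z := by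
  induction z using QuotientAddGroup.induction_on with
  | H t => exact ⟨x⁻¹ * t, by rw [mul_inv_cancel_left₀ hx]⟩

lemma card_fiber [Fintype L] (z : Z L) : Nat.card {t : L // (t : Z L) = z} = Nat.card (W L) := by
  induction z using QuotientAddGroup.induction_on with
  | H t0 =>
    refine Nat.card_congr
      { toFun := fun t => ⟨-t0 + t.1, QuotientAddGroup.eq.1 t.2.symm⟩
        invFun := fun w => ⟨t0 + w.1, ?_⟩
        left_inv := fun t => Subtype.ext (by simp)
        right_inv := fun w => Subtype.ext (by simp) }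
    rw [eq_comm, QuotientAddGroup.eq, neg_add_cancel_left]
    exact w.2

lemma joined_iff (p p' : Pt L) : Joined (inc L) p p' ↔ p.1 ≠ p'.1 := by
  constructor
  · rintro ⟨hne, b, h1, h2⟩ h
    apply hne
    refine Prod.ext h ?_
    unfold inc at h1 h2
    rw [h, h2] at h1
    exact (add_right_cancel h1).symm
  · intro h
    refine ⟨fun h' => h (congrArg Prod.fst h'), ?_⟩
    obtain ⟨y, hy⟩ := surj_mul (sub_ne_zero.2 h) (p.2 - p'.2)
    refine ⟨(y, ((p.1 * y : L) : Z L) + p.2), ?_, ?_⟩
    · unfold inc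
      simp only
      rw [add_comm _ p.2, ← add_assoc, add_self_Z, zero_add]
    · unfold inc
      simp only
      rw [sub_mul, QuotientAddGroup.mk_sub] at hy
      have e : ((p'.1 * y : L) : Z L) = ((p.1 * y : L) : Z L) - (p.2 - p'.2) := by
        rw [← hy]; abel
      have h2 : p.2 + p.2 = 0 := add_self_Z p.2
      have h3 : -p.2 = p.2 := (eq_neg_of_add_eq_zero_left h2).symm
      rw [e, sub_eq_add_neg, neg_sub, sub_eq_add_neg, h3]
      abel

/-- The automorphism group. -/
def G (L : Type) [Field L] [CharP L 2] : Subgroup (Equiv.Perm (Pt L)) where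
  carrier := {g | ∃ h : Equiv.Perm (Pt L), ∀ p b, inc L (g p) (h b) ↔ inc L p b}
  one_mem' := ⟨1, fun _ _ => Iff.rfl⟩
  mul_mem' := by
    rintro g g' ⟨h, hh⟩ ⟨h', hh'⟩
    exact ⟨h * h', fun p b => (hh (g' p) (h' b)).trans (hh' p b)⟩
  inv_mem' := by
    rintro g ⟨h, hh⟩
    refine ⟨h⁻¹, fun p b => ?_⟩
    have h1 : g (g⁻¹ p) = p := g.apply_symm_apply p
    have h2 : h (h⁻¹ b) = b := h.apply_symm_apply b
    rw [← hh (g⁻¹ p) (h⁻¹ b), h1, h2]

lemma G_aut {g : Equiv.Perm (Pt L)} (hg : g ∈ G L) : IsAutomorphism (inc L) g := by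
  obtain ⟨h, hh⟩ := hg
  intro b
  refine ⟨h b, ?_⟩
  ext q
  constructor
  · rintro ⟨p, hp, rfl⟩
    exact (hh p b).2 hp
  · intro hq
    have h1 : g (g⁻¹ q) = q := g.apply_symm_apply q
    refine ⟨g⁻¹ q, ?_, h1⟩
    refine (hh (g⁻¹ q) b).1 ?_
    rw [h1]
    exact hq

/-- The elementary automorphisms `(x, z) ↦ (x + a, z + b x + c)`. -/
def tr (a b : L) (c : Z L) : Equiv.Perm (Pt L) where
  toFun p := (p.1 + a, p.2 + ((b * p.1 : L) : Z L) + c)
  invFun p := (p.1 - a, p.2 - c - ((b * (p.1 - a) : L) : Z L))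
  left_inv p := by
    refine Prod.ext (by simp) ?_
    simp only [add_sub_cancel_right]
  right_inv p := by
    refine Prod.ext (by simp) ?_
    simp only
    abel

lemma tr_mem (a b : L) (c : Z L) : tr a b c ∈ G L := by
  refine ⟨tr b a (((a * b : L) : Z L) + c), fun p q => ?_⟩
  show (((p.1 + a) * (q.1 + b) : L) : Z L) = (p.2 + ((b * p.1 : L) : Z L) + c) +
    (q.2 + ((a * q.1 : L) : Z L) + (((a * b : L) : Z L) + c)) ↔ _
  have e : (((p.1 + a) * (q.1 + b) : L) : Z L) = ((p.1 * q.1 : L) : Z L) +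
      (((b * p.1 : L) : Z L) + ((a * q.1 : L) : Z L) + ((a * b : L) : Z L)) := by
    rw [← QuotientAddGroup.mk_add, ← QuotientAddGroup.mk_add, ← QuotientAddGroup.mk_add]
    congr 1
    ring
  have e2 : (p.2 + ((b * p.1 : L) : Z L) + c) +
      (q.2 + ((a * q.1 : L) : Z L) + (((a * b : L) : Z L) + c)) = (p.2 + q.2) +
      (((b * p.1 : L) : Z L) + ((a * q.1 : L) : Z L) + ((a * b : L) : Z L)) + (c + c) := by abel
  rw [e, e2, add_self_Z, add_zero]
  exact ⟨fun h => add_right_cancel h, fun h => by rw [show _ = _ from h]⟩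

/-- The elementary automorphisms `(x, z) ↦ (l x, z)`. -/
def sc (l : L) (hl : l ≠ 0) : Equiv.Perm (Pt L) where
  toFun p := (l * p.1, p.2)
  invFun p := (l⁻¹ * p.1, p.2)
  left_inv _ := Prod.ext (inv_mul_cancel_left₀ hl _) rfl
  right_inv _ := Prod.ext (mul_inv_cancel_left₀ hl _) rfl

lemma sc_mem (l : L) (hl : l ≠ 0) : sc l hl ∈ G L := by
  refine ⟨sc l⁻¹ (inv_ne_zero hl), fun p q => ?_⟩
  show (((l * p.1) * (l⁻¹ * q.1) : L) : Z L) = p.2 + q.2 ↔ _
  have e : (l * p.1) * (l⁻¹ * q.1) = p.1 * q.1 := by field_simp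
  rw [e]
  exact Iff.rfl

lemma sq_inj : Function.Injective (fun x : L => x ^ 2) := by
  intro x y h
  have h2 : (2 : L) = 0 := CharTwo.two_eq_zero
  simp only at h
  have : (x - y) ^ 2 = 0 := by
    have e : (x - y) ^ 2 = x ^ 2 - y ^ 2 + 2 * (y ^ 2 - x * y) := by ring
    rw [e, h, h2]; ring
  exact sub_eq_zero.1 (pow_eq_zero_iff (two_ne_zero) |>.1 this)

/-- The automorphism induced by squaring. -/
noncomputable def fr (L : Type) [Field L] [CharP L 2] [Finite L] : Equiv.Perm (Pt L) :=
  Equiv.ofBijective (fun p : Pt L => ((p.1 ^ 2, Phi p.2) : Pt L)) (by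
    refine Finite.injective_iff_bijective.1 ?_
    intro p q h
    simp only [Prod.mk.injEq] at h
    exact Prod.ext (sq_inj h.1) (Phi_inj h.2))

lemma fr_mem [Finite L] : fr L ∈ G L := by
  refine ⟨fr L, fun p q => ?_⟩
  show ((p.1 ^ 2 * q.1 ^ 2 : L) : Z L) = Phi p.2 + Phi q.2 ↔ _
  rw [← mul_pow, ← Phi_mk, ← map_add]
  exact ⟨fun h => Phi_inj h, fun h => congrArg _ h⟩

lemma base_joined (q q' : Pt L) (h : q.1 ≠ q'.1) :
    ∃ g ∈ G L, g ((0, 0) : Pt L) = q ∧ g ((1, 0) : Pt L) = q' := by
  have hl : q'.1 - q.1 ≠ 0 := sub_ne_zero.2 (Ne.symm h)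
  obtain ⟨b, hb⟩ := surj_mul hl (q'.2 - q.2)
  refine ⟨tr q.1 b q.2 * sc (q'.1 - q.1) hl, Subgroup.mul_mem _ (tr_mem _ _ _) (sc_mem _ _), ?_, ?_⟩
  · show ((q'.1 - q.1) * 0 + q.1, (0 : Z L) + ((b * ((q'.1 - q.1) * 0) : L) : Z L) + q.2) = q
    refine Prod.ext (by simp) ?_
    simp only [mul_zero, QuotientAddGroup.mk_zero, zero_add]
  · show ((q'.1 - q.1) * 1 + q.1, (0 : Z L) + ((b * ((q'.1 - q.1) * 1) : L) : Z L) + q.2) = q'
    refine Prod.ext (by simp) ?_
    simp only [mul_one, zero_add]
    rw [mul_comm b, hb, sub_add_cancel]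

lemma base_nonjoined [Fintype L] {m : ℕ} (hL : Fintype.card L = 8 ^ m) {z0 : Z L} (hz0 : z0 ≠ 0)
    (q q' : Pt L) (h : q.1 = q'.1) (hne : q ≠ q') :
    ∃ g ∈ G L, g ((0, 0) : Pt L) = q ∧ g ((0, z0) : Pt L) = q' := by
  have hz : q'.2 - q.2 ≠ 0 := by
    intro h'
    exact hne (Prod.ext h (sub_eq_zero.1 h').symm)
  have key : ∃ g ∈ G L, g ((0, 0) : Pt L) = (0, 0) ∧ g ((0, z0) : Pt L) = (0, q'.2 - q.2) := by
    have h1 : ∀ z : Z L, fr L (0, z) = (0, Phi z) := by
      intro z
      show (((0 : L) ^ 2, Phi z) : Pt L) = (0, Phi z)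
      rw [zero_pow two_ne_zero]
    rcases Z_cases hL hz0 _ hz with h | h | h
    · exact ⟨1, Subgroup.one_mem _, rfl, by rw [h]; rfl⟩
    · exact ⟨fr L, fr_mem, by rw [h1, map_zero], by rw [h1, h]⟩
    · refine ⟨fr L * fr L, Subgroup.mul_mem _ fr_mem fr_mem, ?_, ?_⟩
      · rw [Equiv.Perm.mul_apply, h1, h1, map_zero, map_zero]
      · rw [Equiv.Perm.mul_apply, h1, h1, h]
  obtain ⟨g, hg, hg1, hg2⟩ := key
  refine ⟨tr q.1 0 q.2 * g, Subgroup.mul_mem _ (tr_mem _ _ _) hg, ?_, ?_⟩
  · rw [Equiv.Perm.mul_apply, hg1]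
    show ((0 : L) + q.1, (0 : Z L) + ((0 * 0 : L) : Z L) + q.2) = q
    refine Prod.ext (by simp) ?_
    simp only [mul_zero, QuotientAddGroup.mk_zero, zero_add]
  · rw [Equiv.Perm.mul_apply, hg2]
    show ((0 : L) + q.1, (q'.2 - q.2) + ((0 * 0 : L) : Z L) + q.2) = q'
    refine Prod.ext (by simpa using h) ?_
    simp only [mul_zero, QuotientAddGroup.mk_zero, add_zero, sub_add_cancel]

/-- the net axioms -/
lemma isNet [Fintype L] {m : ℕ} (hm : 1 ≤ m) (hL : Fintype.card L = 8 ^ m) :
    IsNet (inc L) 4 (4 * (2 * 8 ^ (m - 1))) (2 * 8 ^ (m - 1)) where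
  card_points := by
    rw [Nat.card_prod, card_L_eq hL hm, card_Z hL]; ring
  card_block b := by
    rw [← card_L_eq hL hm]
    refine Nat.card_congr
      { toFun := fun p => p.1.1
        invFun := fun x => ⟨(x, ((x * b.1 : L) : Z L) + b.2), ?_⟩
        left_inv := fun p => ?_
        right_inv := fun x => rfl }
    · unfold inc
      simp only
      rw [add_assoc, add_self_Z, add_zero]
    · apply Subtype.ext
      refine Prod.ext rfl ?_
      have := p.2
      unfold inc at this
      simp only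
      rw [this, add_assoc, add_self_Z, add_zero]
  classes := by
    let e : L ≃ Fin (4 * (2 * 8 ^ (m - 1))) :=
      Fintype.equivFinOfCardEq (by rw [← Nat.card_eq_fintype_card, card_L_eq hL hm])
    refine ⟨fun b => e b.1, ?_, ?_⟩
    · intro c p
      refine ⟨(e.symm c, ((p.1 * e.symm c : L) : Z L) + p.2), ⟨e.apply_symm_apply c, ?_⟩, ?_⟩
      · unfold inc
        simp only
        rw [add_comm _ p.2, ← add_assoc, add_self_Z, zero_add]
      · rintro ⟨y, w⟩ ⟨hc, hi⟩
        simp only at hc
        unfold inc at hi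
        simp only at hi
        have hy : y = e.symm c := by rw [← hc, Equiv.symm_apply_apply]
        refine Prod.ext hy ?_
        simp only
        rw [← hy, hi, add_comm p.2 w, add_assoc, add_self_Z, add_zero]
    · intro b b' hbb
      have hne : b.1 - b'.1 ≠ 0 := sub_ne_zero.2 fun h => hbb (congrArg e h)
      rw [← card_W hL hm, ← card_fiber (b.2 + b'.2)]
      refine Nat.card_congr
        { toFun := fun p => ⟨p.1.1 * (b.1 - b'.1), ?_⟩
          invFun := fun t => ⟨(t.1 * (b.1 - b'.1)⁻¹, ((t.1 * (b.1 - b'.1)⁻¹ * b.1 : L) : Z L) + b.2),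
            ?_, ?_⟩
          left_inv := fun p => ?_
          right_inv := fun t => Subtype.ext (by field_simp) }
      · obtain ⟨h1, h2⟩ := p.2
        unfold inc at h1 h2
        rw [mul_sub, QuotientAddGroup.mk_sub, h1, h2]
        have h3 : -b'.2 = b'.2 := (eq_neg_of_add_eq_zero_left (add_self_Z b'.2)).symm
        rw [add_sub_add_left_eq_sub, sub_eq_add_neg, h3]
      · unfold inc
        simp only
        rw [add_assoc, add_self_Z, add_zero]
      · unfold inc
        simp only
        have h4 : t.1 * (b.1 - b'.1)⁻¹ * b.1 = t.1 + t.1 * (b.1 - b'.1)⁻¹ * b'.1 := by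
          field_simp
          ring
        rw [h4, QuotientAddGroup.mk_add, t.2]
        have h5 : b.2 + b'.2 + ((t.1 * (b.1 - b'.1)⁻¹ * b'.1 : L) : Z L) + b.2 + b'.2 =
          ((t.1 * (b.1 - b'.1)⁻¹ * b'.1 : L) : Z L) + (b.2 + b.2) + (b'.2 + b'.2) := by abel
        rw [h5, add_self_Z, add_self_Z, add_zero, add_zero]
      · apply Subtype.ext
        have hx : p.1.1 * (b.1 - b'.1) * (b.1 - b'.1)⁻¹ = p.1.1 := by field_simp
        refine Prod.ext hx ?_
        simp only
        have h1 := p.2.1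
        unfold inc at h1
        rw [hx, h1, add_assoc, add_self_Z, add_zero]

lemma isSymmetricNet [Fintype L] {m : ℕ} (hm : 1 ≤ m) (hL : Fintype.card L = 8 ^ m) :
    IsSymmetricNet (inc L) 4 (2 * 8 ^ (m - 1)) where
  two_le := by norm_num
  one_le := by have := Nat.one_le_pow (m - 1) 8 (by norm_num); omega
  three_le := by have := Nat.one_le_pow (m - 1) 8 (by norm_num); omega
  net := isNet hm hL
  dual_net := by
    have : (fun (b p : Pt L) => inc L p b) = inc L := by
      funext b p
      exact propext (inc_symm p b)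
    rw [this]
    exact isNet hm hL

/-- A scalar mapping `W` into itself is `0` or `1`. -/
lemma stab [Fintype L] {m : ℕ} (hL : Fintype.card L = 8 ^ m) (l : L)
    (hl : ∀ x ∈ W L, l * x ∈ W L) : l = 0 ∨ l = 1 := by
  classical
  by_contra hcon
  push Not at hcon
  obtain ⟨hl0, hl1⟩ := hcon
  let Λ : Z L →+ Z L := QuotientAddGroup.map (W L) (W L) (AddMonoidHom.mulLeft l) (fun x hx => hl x hx)
  have hΛ : ∀ x : L, Λ ((x : L) : Z L) = ((l * x : L) : Z L) := fun x => rfl
  have hsurj : Function.Surjective Λ := by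
    intro z
    induction z using QuotientAddGroup.induction_on with
    | H t => exact ⟨((l⁻¹ * t : L) : Z L), by rw [hΛ, mul_inv_cancel_left₀ hl0]⟩
  have hinj : Function.Injective Λ := Finite.injective_iff_surjective.2 hsurj
  have h0 : ∀ z, z ≠ 0 → Λ z ≠ 0 := by
    intro z hz h
    exact hz (hinj (by rw [h, map_zero]))
  have hl1' : l - 1 ≠ 0 := sub_ne_zero.2 hl1
  let M : Z L →+ Z L := Λ - AddMonoidHom.id (Z L)
  have hM : ∀ z, M z = Λ z - z := fun z => rfl
  have hMsurj : Function.Surjective M := by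
    intro z
    induction z using QuotientAddGroup.induction_on with
    | H t =>
      refine ⟨(((l - 1)⁻¹ * t : L) : Z L), ?_⟩
      rw [hM, hΛ, ← QuotientAddGroup.mk_sub]
      congr 1
      field_simp
  have hMinj : Function.Injective M := Finite.injective_iff_surjective.2 hMsurj
  have h1 : ∀ z, z ≠ 0 → Λ z ≠ z := by
    intro z hz h
    exact hz (hMinj (by rw [hM, h, sub_self, map_zero]))
  -- the commutation rule
  have hcomm : ∀ z, Phi (Λ z) = Λ (Λ (Phi z)) := by
    intro z
    induction z using QuotientAddGroup.induction_on with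
    | H t =>
      rw [hΛ, Phi_mk, Phi_mk, hΛ, hΛ]
      congr 1
      ring
  -- a nonzero element
  have hne : ∃ z : Z L, z ≠ 0 := by
    have : Fintype (Z L) := Fintype.ofFinite _
    have hc : Fintype.card (Z L) = 4 := by rw [← Nat.card_eq_fintype_card]; exact card_Z hL
    have : Nontrivial (Z L) := Fintype.one_lt_card_iff_nontrivial.1 (by rw [hc]; norm_num)
    exact exists_ne 0
  obtain ⟨z, hz⟩ := hne
  -- Λ acts without fixed points, so `Λ² z` is the third element
  have third : ∀ z, z ≠ 0 → Λ (Λ z) = z + Λ z := by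
    intro z hz
    rcases Z_cases hL hz (Λ (Λ z)) (h0 _ (h0 _ hz)) with h | h | h
    · -- Λ² z = z : then (Λ + 1)² z = 0
      exfalso
      have h5 : Λ (Λ z + z) = Λ z + z := by rw [map_add, h, add_comm]
      by_cases h6 : Λ z + z = 0
      · rw [add_comm, eq_comm, eq_add_iff, zero_add] at h6
        exact h1 z hz h6.symm
      · exact h1 _ h6 h5
    · rw [h]
      rcases Z_cases hL hz (Λ z) (h0 _ hz) with h' | h' | h'
      · exact absurd h' (h1 z hz)
      · exact absurd (h.trans h'.symm) (h1 _ (h0 _ hz))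
      · rw [h', Phi_Phi, ← add_assoc, add_self_Z, zero_add]
    · rw [h]
      rcases Z_cases hL hz (Λ z) (h0 _ hz) with h' | h' | h'
      · exact absurd h' (h1 z hz)
      · rw [h', Phi_Phi]
      · exact absurd (h.trans h'.symm) (h1 _ (h0 _ hz))
  have cube : ∀ z, z ≠ 0 → Λ (Λ (Λ z)) = z := by
    intro z hz
    rw [third z hz, map_add, third z hz, add_comm z, ← add_assoc, add_self_Z, zero_add]
  rcases Z_cases hL hz (Λ z) (h0 _ hz) with h | h | h
  · exact h1 z hz h
  · have h7 := hcomm z
    rw [← h, cube z hz, h] at h7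
    have h8 : Phi (Phi z) = z := h7
    rw [Phi_Phi] at h8
    exact Phi_ne_zero hz (by simpa using h8)
  · have h7 := hcomm z
    rw [h, Phi3] at h7
    -- Λ z = Φ² z, Φ z = Λ² z
    have h9 : Λ (Λ z) = Phi z := by
      rw [third z hz, h, Phi_Phi, ← add_assoc, add_self_Z, zero_add]
    rw [← h9, cube z hz, h] at h7
    rw [Phi_Phi] at h7
    exact Phi_ne_zero hz (by simpa using h7.symm)

/-- The net is not classical. -/
lemma notClassical [Fintype L] {m : ℕ} (hm : 1 ≤ m) (hL : Fintype.card L = 8 ^ m) :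
    ¬ IsClassical (inc L) := by
  classical
  rintro ⟨F, _, _, d, v, e, hd, hv, hblock⟩
  -- `F` has four elements
  have hF4 : Nat.card F = 4 := by
    obtain ⟨φ, c, hφ, hH⟩ := (hblock (e '' {p | inc L p (0, 0)})).2 ⟨(0, 0), rfl⟩
    have hc1 : Nat.card (Pt L) = Nat.card F * Nat.card {x : Fin d → F // φ x = c} := by
      rw [Nat.card_congr e, ← Nat.card_prod]
      refine Nat.card_congr
        { toFun := fun x => ((φ x - c) / φ v, ⟨x - ((φ x - c) / φ v) • v, by
            rw [map_sub, map_smul, smul_eq_mul, div_mul_cancel₀ _ hφ]; ring⟩)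
          invFun := fun t => t.2.1 + t.1 • v
          left_inv := fun x => by simp
          right_inv := fun t => by
            have h1 : (φ (t.2.1 + t.1 • v) - c) / φ v = t.1 := by
              rw [map_add, map_smul, smul_eq_mul, t.2.2]
              field_simp
              ring
            refine Prod.ext h1 (Subtype.ext ?_)
            simp only [h1, add_sub_cancel_right] }
    have hc2 : Nat.card {x : Fin d → F // φ x = c} = Nat.card {p : Pt L // inc L p (0, 0)} := by
      refine (Nat.card_congr ?_).symm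
      refine (Equiv.subtypeEquiv e ?_)
      intro p
      have : φ (e p) = c ↔ e p ∈ e '' {p | inc L p (0, 0)} := by rw [hH]; rfl
      rw [this, e.injective.mem_set_image]
      rfl
    have hnet := isNet hm hL
    rw [hc2, hnet.card_block, hnet.card_points] at hc1
    have hpos : 0 < 8 ^ (m - 1) := by positivity
    have h3 : Nat.card F * (4 * (2 * 8 ^ (m - 1))) = 4 * (4 * (2 * 8 ^ (m - 1))) := by
      rw [← hc1]; ring
    exact Nat.eq_of_mul_eq_mul_right (by positivity) h3
  have : Fintype F := Fintype.ofFinite F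
  have hF4' : Fintype.card F = 4 := by rw [← Nat.card_eq_fintype_card, hF4]
  -- an element of `F` different from `0` and `1`
  obtain ⟨t, ht0, ht1⟩ : ∃ t : F, t ≠ 0 ∧ t ≠ 1 := by
    by_contra hcon
    push Not at hcon
    have hsub : (Finset.univ : Finset F) ⊆ {0, 1} := by
      intro t _
      rw [Finset.mem_insert, Finset.mem_singleton]
      by_cases h : t = 0
      · exact Or.inl h
      · exact Or.inr (hcon t h)
    have := (Finset.card_le_card hsub).trans Finset.card_le_two
    rw [Finset.card_univ, hF4'] at this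
    omega
  -- a third point on the line of `(0,0)` and `(1,0)`
  set A := e ((0, 0) : Pt L) with hA
  set B := e ((1, 0) : Pt L) with hB
  have hAB : A ≠ B := by
    intro h
    have := e.injective h
    have h2 := congrArg Prod.fst this
    exact zero_ne_one h2
  let C : Fin d → F := A + t • (B - A)
  obtain ⟨r, hr⟩ := e.surjective C
  have hline : ∀ b : Pt L, inc L (0, 0) b → inc L (1, 0) b → inc L r b := by
    intro b h0 h1
    obtain ⟨φ, c, hφ, hH⟩ := (hblock (e '' {p | inc L p b})).2 ⟨b, rfl⟩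
    have hAm : A ∈ e '' {p | inc L p b} := ⟨_, h0, rfl⟩
    have hBm : B ∈ e '' {p | inc L p b} := ⟨_, h1, rfl⟩
    rw [hH] at hAm hBm
    have hAm' : φ A = c := hAm
    have hBm' : φ B = c := hBm
    have hC : C ∈ e '' {p | inc L p b} := by
      rw [hH]
      show φ (A + t • (B - A)) = c
      rw [map_add, map_smul, map_sub, hAm', hBm', sub_self, smul_zero, add_zero]
    rw [← hr, e.injective.mem_set_image] at hC
    exact hC
  have hr0 : r ≠ (0, 0) := by
    rintro rfl
    have : t • (B - A) = 0 := by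
      have h : A = A + t • (B - A) := hr
      have h' : A + t • (B - A) = A + 0 := by rw [add_zero]; exact h.symm
      exact add_left_cancel h'
    rcases smul_eq_zero.1 this with h | h
    · exact ht0 h
    · exact hAB (sub_eq_zero.1 h).symm
  have hr1 : r ≠ (1, 0) := by
    rintro rfl
    have : (t - 1) • (B - A) = 0 := by
      have h : B = A + t • (B - A) := hr
      rw [sub_smul, one_smul]
      have h' : t • (B - A) = B - A := by
        rw [eq_sub_iff_add_eq, add_comm]; exact h.symm
      rw [h', sub_self]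
    rcases smul_eq_zero.1 this with h | h
    · exact ht1 (sub_eq_zero.1 h)
    · exact hAB (sub_eq_zero.1 h).symm
  -- blocks `(y, 0)` with `y ∈ W`
  have hW : ∀ y ∈ W L, ((r.1 * y : L) : Z L) = r.2 := by
    intro y hy
    have h := hline (y, 0) (by
      show (((0 : L) * y : L) : Z L) = 0 + 0
      rw [zero_mul, add_zero]; rfl) (by
      show (((1 : L) * y : L) : Z L) = 0 + 0
      rw [one_mul, add_zero]; exact mk_eq_zero.2 hy)
    unfold inc at h
    simpa using h
  have hr2 : r.2 = 0 := by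
    have := hW 0 (zero_mem _)
    rw [mul_zero] at this
    exact this.symm
  have hst := stab hL r.1 (fun y hy => by
    rw [← mk_eq_zero, hW y hy, hr2])
  rcases hst with h | h
  · exact hr0 (Prod.ext h hr2)
  · exact hr1 (Prod.ext h hr2)

end construction

/-- For every `m ≥ 1` there is a symmetric `(4, 2 · 8^(m-1))`-net which is not classical and has a
group of automorphisms that is transitive on the ordered pairs of joined points and on the ordered
pairs of distinct non-joined points. -/
theorem result (m : ℕ) (hm : 1 ≤ m) :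
    ∃ (P Q : Type) (I : P → Q → Prop), Finite P ∧ Finite Q ∧
      IsSymmetricNet I 4 (2 * 8 ^ (m - 1)) ∧ ¬ IsClassical I ∧
      ∃ G : Subgroup (Equiv.Perm P), (∀ g ∈ G, IsAutomorphism I g) ∧
        (∀ p p' q q' : P, Joined I p p' → Joined I q q' → ∃ g ∈ G, g p = q ∧ g p' = q') ∧
        (∀ p p' q q' : P, p ≠ p' → ¬ Joined I p p' → q ≠ q' → ¬ Joined I q q' →
          ∃ g ∈ G, g p = q ∧ g p' = q') := by
  classical
  have : Fact (Nat.Prime 2) := ⟨Nat.prime_two⟩
  let L := GaloisField 2 (3 * m)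
  let _ : Fintype L := Fintype.ofFinite L
  have hL : Fintype.card L = 8 ^ m := by
    rw [← Nat.card_eq_fintype_card, GaloisField.card 2 (3 * m) (by omega), pow_mul]
    norm_num
  have hZ : ∃ z0 : Z L, z0 ≠ 0 := by
    have : Fintype (Z L) := Fintype.ofFinite _
    have hc : Fintype.card (Z L) = 4 := by rw [← Nat.card_eq_fintype_card]; exact card_Z hL
    have : Nontrivial (Z L) := Fintype.one_lt_card_iff_nontrivial.1 (by rw [hc]; norm_num)
    exact exists_ne 0
  obtain ⟨z0, hz0⟩ := hZ
  refine ⟨Pt L, Pt L, inc L, inferInstance, inferInstance, isSymmetricNet hm hL,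
    notClassical hm hL, G L, fun g hg => G_aut hg, ?_, ?_⟩
  · intro p p' q q' hp hq
    obtain ⟨g, hg, h1, h2⟩ := base_joined p p' ((joined_iff p p').1 hp)
    obtain ⟨g', hg', h1', h2'⟩ := base_joined q q' ((joined_iff q q').1 hq)
    refine ⟨g' * g⁻¹, Subgroup.mul_mem _ hg' (Subgroup.inv_mem _ hg), ?_, ?_⟩
    · have : g⁻¹ p = (0, 0) := by rw [← h1]; exact g.symm_apply_apply _
      rw [Equiv.Perm.mul_apply, this, h1']
    · have : g⁻¹ p' = (1, 0) := by rw [← h2]; exact g.symm_apply_apply _
      rw [Equiv.Perm.mul_apply, this, h2']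
  · intro p p' q q' hpp hp hqq hq
    rw [joined_iff, not_not] at hp hq
    obtain ⟨g, hg, h1, h2⟩ := base_nonjoined hL hz0 p p' hp hpp
    obtain ⟨g', hg', h1', h2'⟩ := base_nonjoined hL hz0 q q' hq hqq
    refine ⟨g' * g⁻¹, Subgroup.mul_mem _ hg' (Subgroup.inv_mem _ hg), ?_, ?_⟩
    · have : g⁻¹ p = (0, 0) := by rw [← h1]; exact g.symm_apply_apply _
      rw [Equiv.Perm.mul_apply, this, h1']
    · have : g⁻¹ p' = (0, z0) := by rw [← h2]; exact g.symm_apply_apply _
      rw [Equiv.Perm.mul_apply, this, h2']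

end Pool.Agent.Results.MP_36fbc5_co.NonClassicalNets
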